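import Pool.Agent.H37.CPX.Targets

/-! Row SUBB: a box covered by two triangles. -/

set_option autoImplicit false

namespace Pool.Agent.H78.CPX

open Finset Pool.Agent.H37.CPX

theorem pf_SUBB (hM : S_MED) : S_SUBB := by
  classical
  intro α β A B u1 u2 w1 w2 hcov
  obtain ⟨θ, h1, h2⟩ := hM α A u1
  by_cases hB : B.card ≤ 2 * (B.filter (fun y => w1 y < θ)).card
  · refine ⟨A.filter (fun x => θ ≤ u1 x), Finset.filter_subset _ _,
      B.filter (fun y => w1 y < θ), Finset.filter_subset _ _, ?_, hB, Or.inl ?_⟩
    · convert h2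
    · intro x hx y hy
      exact lt_of_lt_of_le (Finset.mem_filter.1 hy).2 (Finset.mem_filter.1 hx).2
  · refine ⟨A.filter (fun x => ¬ θ < u1 x), Finset.filter_subset _ _,
      B.filter (fun y => ¬ w1 y < θ), Finset.filter_subset _ _, ?_, ?_, Or.inr ?_⟩
    · have e := Finset.card_filter_add_card_filter_not (s := A) (fun x => θ < u1 x)
      have h1' : 2 * (A.filter (fun x => θ < u1 x)).card ≤ A.card := by convert h1
      omega
    · have e := Finset.card_filter_add_card_filter_not (s := B) (fun y => w1 y < θ)
      omega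
    · intro x hx y hy
      rw [Finset.mem_filter] at hx hy
      rcases hcov x hx.1 y hy.1 with h | h
      · exact absurd (lt_of_le_of_lt (not_lt.1 hy.2) h) hx.2
      · exact h

end Pool.Agent.H78.CPX
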