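import Pool.Agent.H37.CPX.Targets

/-! Row SYS: systems of equations with expansion and without solution, by counting. -/

set_option autoImplicit false

namespace Pool.Agent.H78.CPX

open Finset Pool.Agent.H37.CPX

theorem fac_lb (n : ℕ) : (n : ℝ) ^ n ≤ 3 ^ n * (n.factorial : ℝ) := by
  have h1 := Real.pow_div_factorial_le_exp (n : ℝ) (Nat.cast_nonneg n) n
  have h2 : Real.exp (n : ℝ) = Real.exp 1 ^ n := by
    rw [← Real.exp_nat_mul, mul_one]
  have h3 : Real.exp 1 ^ n ≤ 3 ^ n :=
    pow_le_pow_left₀ (Real.exp_pos 1).le (by linarith [Real.exp_one_lt_d9]) n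
  have h4 : (0 : ℝ) < n.factorial := by exact_mod_cast Nat.factorial_pos n
  rw [div_le_iff₀ h4] at h1
  rw [h2] at h1
  exact h1.trans (mul_le_mul_of_nonneg_right h3 h4.le)

theorem choose_ub (n k : ℕ) (hk : 1 ≤ k) : (n.choose k : ℝ) ≤ (3 * (n : ℝ) / k) ^ k := by
  have h1 : (n.choose k : ℝ) ≤ (n : ℝ) ^ k / k.factorial := Nat.choose_le_pow_div k n
  have h2 := fac_lb k
  have h4 : (0 : ℝ) < k.factorial := by exact_mod_cast Nat.factorial_pos k
  have h5 : (0 : ℝ) < k := by exact_mod_cast hk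
  have h6 : (0 : ℝ) < (k : ℝ) ^ k := pow_pos h5 k
  refine h1.trans ?_
  rw [div_pow, mul_pow, div_le_div_iff₀ h4 h6]
  have h7 : (0 : ℝ) ≤ (n : ℝ) ^ k := by positivity
  calc (n : ℝ) ^ k * (k : ℝ) ^ k ≤ (n : ℝ) ^ k * (3 ^ k * k.factorial) :=
        mul_le_mul_of_nonneg_left h2 h7
    _ = 3 ^ k * (n : ℝ) ^ k * k.factorial := by ring

theorem geo4 (n : ℕ) : ∑ s ∈ Finset.Icc 1 n, (1 / 4 : ℝ) ^ s ≤ 1 / 3 * (1 - (1 / 4) ^ n) := by
  induction n with
  | zero => simp
  | succ n ih =>
    rw [Finset.sum_Icc_succ_top (by omega)]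
    have e : (1 / 4 : ℝ) ^ (n + 1) = (1 / 4) ^ n * (1 / 4) := pow_succ _ _
    rw [e]
    linarith

theorem desc_ratio (w B K : ℕ) (hw : w ≤ B) :
    w.descFactorial K * B ^ K ≤ B.descFactorial K * w ^ K := by
  induction K with
  | zero => simp
  | succ K ih =>
    rw [Nat.descFactorial_succ, Nat.descFactorial_succ, pow_succ, pow_succ]
    have h : (w - K) * B ≤ (B - K) * w := by
      rw [Nat.sub_mul, Nat.sub_mul, Nat.mul_comm B w]
      exact Nat.sub_le_sub_left (Nat.mul_le_mul_left _ hw) _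
    calc (w - K) * w.descFactorial K * (B ^ K * B)
        = ((w - K) * B) * (w.descFactorial K * B ^ K) := by ring
      _ ≤ ((B - K) * w) * (B.descFactorial K * w ^ K) := Nat.mul_le_mul h ih
      _ = (B - K) * B.descFactorial K * (w ^ K * w) := by ring

theorem choose_ratio (w B K : ℕ) (hw : w ≤ B) :
    w.choose K * B ^ K ≤ B.choose K * w ^ K := by
  have h := desc_ratio w B K hw
  rw [Nat.descFactorial_eq_factorial_mul_choose, Nat.descFactorial_eq_factorial_mul_choose,
    Nat.mul_assoc, Nat.mul_assoc] at h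
  exact Nat.le_of_mul_le_mul_left h (Nat.factorial_pos K)

/-- one term of the union bound -/
theorem sys_term (D B s : ℕ) (hD : 1 ≤ D) (hs : 1 ≤ s)
    (hsB : s * (48 * 3 ^ D * D ^ 2) ≤ 2 * B) :
    ((2 * B).choose s : ℝ) * ((B.choose (D * s) : ℝ) *
      (((D * s : ℕ) : ℝ) / B) ^ ((D + 2) * s)) ≤ (1 / 4) ^ s := by
  have h3D : 1 ≤ 3 ^ D := Nat.one_le_pow _ _ (by norm_num)
  have hD2 : 1 ≤ D ^ 2 := Nat.one_le_pow _ _ hD
  have hE1 : 1 ≤ 48 * 3 ^ D * D ^ 2 := by
    have : 1 ≤ 3 ^ D * D ^ 2 := Nat.mul_le_mul h3D hD2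
    calc 1 ≤ 48 * (3 ^ D * D ^ 2) := by omega
      _ = 48 * 3 ^ D * D ^ 2 := by ring
  have hB1 : 1 ≤ B := by
    have : 1 ≤ s * (48 * 3 ^ D * D ^ 2) := Nat.mul_le_mul hs hE1
    omega
  have hw1 : 1 ≤ D * s := Nat.mul_le_mul hD hs
  have b0 : (0 : ℝ) < B := by exact_mod_cast hB1
  have s0 : (0 : ℝ) < s := by exact_mod_cast hs
  have w0 : (0 : ℝ) < ((D * s : ℕ) : ℝ) := by exact_mod_cast hw1
  have c1 : ((2 * B).choose s : ℝ) ≤ (3 * (2 * (B : ℝ)) / s) ^ s := by
    have := choose_ub (2 * B) s hs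
    push_cast at this
    exact this
  have c2 := choose_ub B (D * s) hw1
  have c3 : (3 * (B : ℝ) / ((D * s : ℕ) : ℝ)) ^ (D * s) *
      (((D * s : ℕ) : ℝ) / B) ^ ((D + 2) * s) =
      (3 ^ D * (((D * s : ℕ) : ℝ) / B) ^ 2) ^ s := by
    obtain ⟨w, hw⟩ : ∃ w : ℝ, w = ((D * s : ℕ) : ℝ) := ⟨_, rfl⟩
    rw [← hw] at w0 ⊢
    have e2 : (3 * (B : ℝ) / w) * (w / B) = 3 := by
      field_simp
    have e : (D + 2) * s = D * s + 2 * s := by ring
    rw [e, pow_add, ← mul_assoc, ← mul_pow, e2, mul_pow, ← pow_mul, ← pow_mul]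
  have c4 : (B.choose (D * s) : ℝ) * (((D * s : ℕ) : ℝ) / B) ^ ((D + 2) * s) ≤
      (3 ^ D * (((D * s : ℕ) : ℝ) / B) ^ 2) ^ s := by
    rw [← c3]
    exact mul_le_mul_of_nonneg_right c2 (by positivity)
  refine le_trans (mul_le_mul c1 c4 (by positivity) (by positivity)) ?_
  rw [← mul_pow]
  refine pow_le_pow_left₀ (by positivity) ?_ s
  have e4 : 3 * (2 * (B : ℝ)) / s * (3 ^ D * (((D * s : ℕ) : ℝ) / B) ^ 2) =
      (6 * 3 ^ D * D ^ 2 * s) / B := by
    push_cast
    field_simp
    ring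
  rw [e4, div_le_iff₀ b0]
  have e5 : (s : ℝ) * (48 * 3 ^ D * D ^ 2) ≤ 2 * B := by exact_mod_cast hsB
  linarith

/-- the systems with expansion -/
theorem expand (D B : ℕ) (hD : 1 ≤ D) (hB : D + 2 ≤ B) :
    ∃ T : Fin (2 * B) → Finset (Fin B), (∀ j, (T j).card = D + 2) ∧
      ∀ J : Finset (Fin (2 * B)), J.card ≤ 2 * (B / (48 * 3 ^ D * D ^ 2)) →
        D * J.card ≤ (J.biUnion T).card := by
  classical
  have h3D : 1 ≤ 3 ^ D := Nat.one_le_pow _ _ (by norm_num)
  have hD2 : D ≤ D ^ 2 := by nlinarith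
  obtain ⟨E, hE⟩ : ∃ E, E = 48 * 3 ^ D * D ^ 2 := ⟨_, rfl⟩
  have hDE : 2 * D ≤ E := by
    have : D ≤ 3 ^ D * D ^ 2 := by nlinarith
    rw [hE]
    calc 2 * D ≤ 48 * (3 ^ D * D ^ 2) := by omega
      _ = 48 * 3 ^ D * D ^ 2 := by ring
  rw [← hE]
  obtain ⟨K, hK⟩ : ∃ K, K = D + 2 := ⟨_, rfl⟩
  rw [← hK]
  rw [← hK] at hB
  -- all functions
  set Om : Finset (Fin (2 * B) → Finset (Fin B)) :=
    Fintype.piFinset (fun _ : Fin (2 * B) => powersetCard K (univ : Finset (Fin B))) with hOm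
  have hOmc : Om.card = (B.choose K) ^ (2 * B) := by
    rw [hOm, Fintype.card_piFinset]
    simp
  let Bad : Finset (Fin (2 * B)) → Finset (Fin B) → Finset (Fin (2 * B) → Finset (Fin B)) :=
    fun S W => Fintype.piFinset
      (fun i : Fin (2 * B) => if i ∈ S then powersetCard K W else powersetCard K univ)
  have hBadc : ∀ (S : Finset (Fin (2 * B))) (W : Finset (Fin B)),
      (Bad S W).card = (W.card.choose K) ^ S.card * (B.choose K) ^ (2 * B - S.card) := by
    intro S W
    show (Fintype.piFinset _).card = _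
    rw [Fintype.card_piFinset]
    have e1 : ∀ i : Fin (2 * B),
        (if i ∈ S then powersetCard K W else powersetCard K (univ : Finset (Fin B))).card =
          if i ∈ S then W.card.choose K else B.choose K := by
      intro i
      split_ifs
      · rw [card_powersetCard]
      · rw [card_powersetCard, Finset.card_univ, Fintype.card_fin]
    rw [Finset.prod_congr rfl (fun i _ => e1 i), Finset.prod_ite, Finset.prod_const,
      Finset.prod_const]
    have e2 : (univ.filter (fun i : Fin (2 * B) => i ∈ S)) = S := by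
      ext i
      simp
    have e3 : (univ.filter (fun i : Fin (2 * B) => ¬ i ∈ S)) = Sᶜ := by
      ext i
      simp
    rw [e2, e3, Finset.card_compl, Fintype.card_fin]
  set bad : Finset (Fin (2 * B) → Finset (Fin B)) :=
    (Finset.Icc 1 (2 * (B / E))).biUnion fun s =>
      (powersetCard s (univ : Finset (Fin (2 * B)))).biUnion fun S =>
        (powersetCard (D * s) (univ : Finset (Fin B))).biUnion fun W => Bad S W with hbad
  have b0 : (0 : ℝ) < B := by
    have : 0 < B := by omega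
    exact_mod_cast this
  have hcK : (0 : ℝ) < (B.choose K : ℝ) := by
    exact_mod_cast Nat.choose_pos hB
  have hsE : ∀ s, s ≤ 2 * (B / E) → s * E ≤ 2 * B := by
    intro s hs
    calc s * E ≤ 2 * (B / E) * E := Nat.mul_le_mul_right _ hs
      _ = 2 * (B / E * E) := by ring
      _ ≤ 2 * B := Nat.mul_le_mul_left _ (Nat.div_mul_le_self B E)
  have hDs : ∀ s, s ≤ 2 * (B / E) → D * s ≤ B := by
    intro s hs
    have h1 := hsE s hs
    have h2 : s * (2 * D) ≤ s * E := Nat.mul_le_mul_left _ hDE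
    have h3 : s * (2 * D) = 2 * (D * s) := by ring
    omega
  have hlt : (bad.card : ℝ) < (Om.card : ℝ) := by
    have h1 : bad.card ≤ ∑ s ∈ Finset.Icc 1 (2 * (B / E)),
        ∑ S ∈ powersetCard s (univ : Finset (Fin (2 * B))),
          ∑ W ∈ powersetCard (D * s) (univ : Finset (Fin B)), (Bad S W).card := by
      rw [hbad]
      refine Finset.card_biUnion_le.trans (Finset.sum_le_sum fun s _ => ?_)
      refine Finset.card_biUnion_le.trans (Finset.sum_le_sum fun S _ => ?_)
      exact Finset.card_biUnion_le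
    have h2 : ∀ s ∈ Finset.Icc 1 (2 * (B / E)),
        ((∑ S ∈ powersetCard s (univ : Finset (Fin (2 * B))),
          ∑ W ∈ powersetCard (D * s) (univ : Finset (Fin B)), (Bad S W).card : ℕ) : ℝ) ≤
          (1 / 4) ^ s * (B.choose K : ℝ) ^ (2 * B) := by
      intro s hs
      rw [Finset.mem_Icc] at hs
      have hsb := hsE s hs.2
      by_cases hsR : s ≤ 2 * B
      · have e1 : ∑ S ∈ powersetCard s (univ : Finset (Fin (2 * B))),
            ∑ W ∈ powersetCard (D * s) (univ : Finset (Fin B)), (Bad S W).card =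
            (2 * B).choose s * (B.choose (D * s) *
              (((D * s).choose K) ^ s * (B.choose K) ^ (2 * B - s))) := by
          have e2 : ∀ S ∈ powersetCard s (univ : Finset (Fin (2 * B))),
              ∑ W ∈ powersetCard (D * s) (univ : Finset (Fin B)), (Bad S W).card =
              B.choose (D * s) * (((D * s).choose K) ^ s * (B.choose K) ^ (2 * B - s)) := by
            intro S hS
            have hSc := (Finset.mem_powersetCard.1 hS).2
            have e3 : ∀ W ∈ powersetCard (D * s) (univ : Finset (Fin B)), (Bad S W).card =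
                ((D * s).choose K) ^ s * (B.choose K) ^ (2 * B - s) := by
              intro W hW
              rw [hBadc, hSc, (Finset.mem_powersetCard.1 hW).2]
            rw [Finset.sum_congr rfl e3, Finset.sum_const, card_powersetCard, Finset.card_univ,
              Fintype.card_fin, smul_eq_mul]
          rw [Finset.sum_congr rfl e2, Finset.sum_const, card_powersetCard, Finset.card_univ,
            Fintype.card_fin, smul_eq_mul]
        rw [e1]
        push_cast
        have hwB : D * s ≤ B := hDs s hs.2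
        have e4 : ((D * s).choose K : ℝ) ≤
            (B.choose K : ℝ) * (((D * s : ℕ) : ℝ) / B) ^ K := by
          have := choose_ratio (D * s) B K hwB
          rw [div_pow, ← mul_div_assoc, le_div_iff₀ (pow_pos b0 K)]
          exact_mod_cast this
        have e5 : ((D * s).choose K : ℝ) ^ s * (B.choose K : ℝ) ^ (2 * B - s) ≤
            (((D * s : ℕ) : ℝ) / B) ^ (K * s) * (B.choose K : ℝ) ^ (2 * B) := by
          have e6 := pow_le_pow_left₀ (Nat.cast_nonneg _) e4 s
          calc ((D * s).choose K : ℝ) ^ s * (B.choose K : ℝ) ^ (2 * B - s)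
              ≤ ((B.choose K : ℝ) * (((D * s : ℕ) : ℝ) / B) ^ K) ^ s *
                  (B.choose K : ℝ) ^ (2 * B - s) :=
                mul_le_mul_of_nonneg_right e6 (by positivity)
            _ = (((D * s : ℕ) : ℝ) / B) ^ (K * s) *
                  ((B.choose K : ℝ) ^ s * (B.choose K : ℝ) ^ (2 * B - s)) := by
                rw [mul_pow, ← pow_mul]
                ring
            _ = (((D * s : ℕ) : ℝ) / B) ^ (K * s) * (B.choose K : ℝ) ^ (2 * B) := by
                rw [← pow_add]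
                congr 2
                omega
        have e7 := sys_term D B s hD hs.1 (by rw [← hE]; exact hsb)
        rw [← hK] at e7
        calc ((2 * B).choose s : ℝ) * ((B.choose (D * s) : ℝ) *
              (((D * s).choose K : ℝ) ^ s * (B.choose K : ℝ) ^ (2 * B - s)))
            ≤ ((2 * B).choose s : ℝ) * ((B.choose (D * s) : ℝ) *
              ((((D * s : ℕ) : ℝ) / B) ^ (K * s) * (B.choose K : ℝ) ^ (2 * B))) := by
              refine mul_le_mul_of_nonneg_left ?_ (Nat.cast_nonneg _)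
              exact mul_le_mul_of_nonneg_left e5 (Nat.cast_nonneg _)
          _ = (((2 * B).choose s : ℝ) * ((B.choose (D * s) : ℝ) *
              (((D * s : ℕ) : ℝ) / B) ^ (K * s))) * (B.choose K : ℝ) ^ (2 * B) := by ring
          _ ≤ (1 / 4) ^ s * (B.choose K : ℝ) ^ (2 * B) :=
              mul_le_mul_of_nonneg_right e7 (by positivity)
      · have e1 : powersetCard s (univ : Finset (Fin (2 * B))) = ∅ := by
          rw [Finset.powersetCard_eq_empty, Finset.card_univ, Fintype.card_fin]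
          omega
        rw [e1]
        simp only [Finset.sum_empty, Nat.cast_zero]
        positivity
    have h3 : (bad.card : ℝ) ≤ ∑ s ∈ Finset.Icc 1 (2 * (B / E)),
        (1 / 4 : ℝ) ^ s * (B.choose K : ℝ) ^ (2 * B) := by
      refine le_trans (Nat.cast_le.2 h1) ?_
      rw [Nat.cast_sum]
      exact Finset.sum_le_sum h2
    rw [← Finset.sum_mul] at h3
    have h4 := geo4 (2 * (B / E))
    have h5 : (0 : ℝ) < (1 / 4) ^ (2 * (B / E)) := by positivity
    have h6 : (0 : ℝ) < (B.choose K : ℝ) ^ (2 * B) := pow_pos hcK (2 * B)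
    rw [hOmc]
    push_cast
    refine lt_of_le_of_lt h3 ?_
    nlinarith
  have hlt' : bad.card < Om.card := by exact_mod_cast hlt
  obtain ⟨T, hTO, hTb⟩ : ∃ T ∈ Om, T ∉ bad := Finset.exists_mem_notMem_of_card_lt_card hlt'
  have hTK : ∀ i, (T i).card = K := by
    intro i
    rw [hOm, Fintype.mem_piFinset] at hTO
    exact (Finset.mem_powersetCard.1 (hTO i)).2
  refine ⟨T, hTK, ?_⟩
  intro S hSc
  by_contra hcon
  push Not at hcon
  apply hTb
  have hS1 : 1 ≤ S.card := by
    rcases Nat.eq_zero_or_pos S.card with h | h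
    · rw [h] at hcon
      simp at hcon
    · exact h
  obtain ⟨W, hUW, hWc⟩ := Finset.exists_superset_card_eq hcon.le (by
    rw [Fintype.card_fin]
    exact hDs _ hSc)
  rw [hbad, Finset.mem_biUnion]
  refine ⟨S.card, Finset.mem_Icc.2 ⟨hS1, hSc⟩, ?_⟩
  rw [Finset.mem_biUnion]
  refine ⟨S, Finset.mem_powersetCard.2 ⟨Finset.subset_univ _, rfl⟩, ?_⟩
  rw [Finset.mem_biUnion]
  refine ⟨W, Finset.mem_powersetCard.2 ⟨Finset.subset_univ _, hWc⟩, ?_⟩
  show T ∈ Fintype.piFinset _
  rw [Fintype.mem_piFinset]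
  intro i
  split_ifs with hi
  · refine Finset.mem_powersetCard.2 ⟨?_, hTK i⟩
    exact (Finset.subset_biUnion_of_mem T hi).trans hUW
  · exact Finset.mem_powersetCard.2 ⟨Finset.subset_univ _, hTK i⟩

/-- some right hand side without solution -/
theorem rhs (B : ℕ) (hB : 1 ≤ B) (T : Fin (2 * B) → Finset (Fin B)) :
    ∃ b : Fin (2 * B) → ZMod 2, ∀ z : Fin B → ZMod 2, ∃ j, ∑ i ∈ T j, z i ≠ b j := by
  by_contra hcon
  push Not at hcon
  have hsurj : Function.Surjective
      (fun (z : Fin B → ZMod 2) (j : Fin (2 * B)) => ∑ i ∈ T j, z i) := by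
    intro b
    obtain ⟨z, hz⟩ := hcon b
    exact ⟨z, funext hz⟩
  have h := Fintype.card_le_of_surjective _ hsurj
  rw [Fintype.card_fun, Fintype.card_fun, ZMod.card, Fintype.card_fin, Fintype.card_fin] at h
  have h2 := (Nat.pow_le_pow_iff_right (show 1 < 2 by norm_num)).1 h
  omega

theorem pf_SYS : S_SYS := by
  intro k
  refine ⟨48 * 3 ^ (k + 4) * (k + 4) ^ 2, k + 6, ?_, ?_⟩
  · have h1 : 1 ≤ 3 ^ (k + 4) := Nat.one_le_pow _ _ (by norm_num)
    have h2 : 1 ≤ (k + 4) ^ 2 := Nat.one_le_pow _ _ (by omega)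
    have h3 : 1 ≤ 3 ^ (k + 4) * (k + 4) ^ 2 := Nat.mul_le_mul h1 h2
    calc 1 ≤ 48 * (3 ^ (k + 4) * (k + 4) ^ 2) := by omega
      _ = 48 * 3 ^ (k + 4) * (k + 4) ^ 2 := by ring
  intro B hB
  obtain ⟨T, hT1, hT2⟩ := expand (k + 4) B (by omega) (by omega)
  obtain ⟨b, hb⟩ := rhs B (by omega) T
  refine ⟨⟨T, b, fun j => by rw [hT1 j], ?_⟩, hb⟩
  intro J hJ
  convert hT2 J hJ

end Pool.Agent.H78.CPX
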